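import Pool.Agent.helper29.NS.SpecC
import Pool.Agent.helper93.NS.UZ

/-!
# MP_b9b054_an (project `ns:`), module `ns:YZ`: unique continuation on a time window
-/

namespace NS

open MeasureTheory Filter Topology Set

theorem YZ_open (R : ℝ) : IsOpen (Dsc 0 R) := by
  have h : Dsc 0 R = {q : ℝ × ℝ | (q.1 - (0 : ℝ × ℝ).1) ^ 2 + (q.2 - (0 : ℝ × ℝ).2) ^ 2 < R ^ 2} := by
    ext q
    simp [Dsc]
  rw [h]
  exact isOpen_lt (by fun_prop) continuous_const

theorem YZ_mul {O : Set (ℝ × ℝ × ℝ)} (hO : IsOpen O) {χ v : ℝ × ℝ × ℝ → ℝ}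
    (hχ : ContDiff ℝ (⊤ : ℕ∞) χ) (hts : tsupport χ ⊆ O) (hv : ContDiffOn ℝ 2 v O) :
    ContDiff ℝ 2 (fun z => χ z * v z) := by
  rw [contDiff_iff_contDiffAt]
  intro z
  by_cases hz : z ∈ O
  · exact ((hχ.of_le (WithTop.coe_le_coe.mpr (le_top : (2 : ℕ∞) ≤ ⊤))).contDiffAt).mul (hv.contDiffAt (hO.mem_nhds hz))
  · have h1 : z ∉ tsupport χ := fun h => hz (hts h)
    have h2 := notMem_tsupport_iff_eventuallyEq.1 h1
    refine (contDiffAt_const (c := (0 : ℝ))).congr_of_eventuallyEq ?_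
    filter_upwards [h2] with y hy
    simp [hy]

theorem YZ_supp {χ : ℝ × ℝ × ℝ → ℝ} {R2 R : ℝ} (h0 : 0 < R2) (hR : R2 < R)
    (h : ∀ z, χ z ≠ 0 → |z.1| ≤ 2 ∧ rh z ≤ R2 ^ 2) : tsupport χ ⊆ Ioo (-3 : ℝ) 3 ×ˢ Dsc 0 R := by
  intro z hz
  have h1 := (UZ_cutoff_supp h0 hR h hz).2
  have hcl : IsClosed {z : ℝ × ℝ × ℝ | |z.1| ≤ 2} := isClosed_le (by fun_prop) continuous_const
  have h2 : z ∈ {z : ℝ × ℝ × ℝ | |z.1| ≤ 2} := closure_minimal (fun y hy => (h y hy).1) hcl hz
  have h3 : |z.1| ≤ 2 := h2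
  have h4 := abs_le.1 h3
  exact ⟨⟨by linarith, by linarith⟩, h1⟩

/-- the pointwise estimate -/
theorem YZ_point {v w χ : ℝ × ℝ × ℝ → ℝ} {R R1 l ν K τ : ℝ} (hR1 : 0 < R1) (hR : R1 < R)
    (hl : 0 < l) (hτ : 0 ≤ τ)
    (h1 : ∀ z : ℝ × ℝ × ℝ, |z.1| ≤ 1 → rh z ≤ R1 ^ 2 → χ z = 1)
    (hin : ∀ t ∈ Ioo (-3 : ℝ) 3, ∀ q ∈ Dsc 0 R, |heat ν v (t, q)| + |heat ν w (t, q)| ≤ K * (|v (t, q)| + |w (t, q)|
      + |dx v (t, q)| + |dy v (t, q)| + |dx w (t, q)| + |dy w (t, q)|)) (z : ℝ × ℝ × ℝ) :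
    Real.exp (2 * τ * wt l z) * heat ν (fun z => χ z * v z) z ^ 2
      + Real.exp (2 * τ * wt l z) * heat ν (fun z => χ z * w z) z ^ 2
    ≤ 6 * K ^ 2 * ((Real.exp (2 * τ * wt l z) * (χ z * v z) ^ 2
        + Real.exp (2 * τ * wt l z) * (dx (fun z => χ z * v z) z ^ 2
          + dy (fun z => χ z * v z) z ^ 2))
      + (Real.exp (2 * τ * wt l z) * (χ z * w z) ^ 2
        + Real.exp (2 * τ * wt l z) * (dx (fun z => χ z * w z) z ^ 2
          + dy (fun z => χ z * w z) z ^ 2)))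
      + Real.exp (2 * τ * Real.exp (-(l * R1 ^ 2))) * (heat ν (fun z => χ z * v z) z ^ 2
        + heat ν (fun z => χ z * w z) z ^ 2) := by
  set e := Real.exp (2 * τ * wt l z) with he
  have hepos : 0 < e := Real.exp_pos _
  set E1 := Real.exp (2 * τ * Real.exp (-(l * R1 ^ 2))) with hE1
  have hE1pos : 0 < E1 := Real.exp_pos _
  by_cases hz : |z.1| < 1 ∧ rh z < R1 ^ 2
  · obtain ⟨v1, v2, v3, v4⟩ := UZ_evh (UZ_ev (v := v) h1 z hz.1 hz.2) ν
    obtain ⟨w1, w2, w3, w4⟩ := UZ_evh (UZ_ev (v := w) h1 z hz.1 hz.2) ν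
    rw [v1, v2, v3, v4, w1, w2, w3, w4]
    have hzR : z.2 ∈ Dsc 0 R := by
      rw [UZ_mem]
      have : R1 ^ 2 < R ^ 2 := by nlinarith
      exact hz.2.trans this
    have hz3 : z.1 ∈ Ioo (-3 : ℝ) 3 := by
      have h9 := abs_lt.1 hz.1
      exact ⟨by linarith, by linarith⟩
    have h6 := UZ_six (hin z.1 hz3 z.2 hzR)
    simp only [Prod.mk.eta] at h6
    have h7 := mul_le_mul_of_nonneg_left h6 hepos.le
    have h8 : 0 ≤ E1 * (heat ν v z ^ 2 + heat ν w z ^ 2) := by positivity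
    nlinarith
  · have hw1 : wt l z ≤ Real.exp (-(l * R1 ^ 2)) := by
      rw [not_and_or] at hz
      unfold wt
      rcases hz with hz | hz
      · have h2 : 1 ≤ z.1 ^ 2 := by
          rw [← sq_abs]
          have := not_lt.1 hz
          nlinarith
        have h3 : Real.exp (-(l * rh z)) ≤ 1 := by
          rw [Real.exp_le_one_iff]
          have : 0 ≤ rh z := by unfold rh; positivity
          have := mul_nonneg hl.le this
          linarith
        have h4 := Real.exp_pos (-(l * R1 ^ 2))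
        linarith
      · have h2 : Real.exp (-(l * rh z)) ≤ Real.exp (-(l * R1 ^ 2)) := by
          apply Real.exp_le_exp.2
          have := mul_le_mul_of_nonneg_left (not_lt.1 hz) hl.le
          linarith
        have h3 := sq_nonneg z.1
        linarith
    have hee : e ≤ E1 := by
      apply Real.exp_le_exp.2
      exact mul_le_mul_of_nonneg_left hw1 (by linarith)
    have h2 : 0 ≤ heat ν (fun z => χ z * v z) z ^ 2 + heat ν (fun z => χ z * w z) z ^ 2 := by
      positivity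
    have h3 := mul_le_mul_of_nonneg_right hee h2
    have h4 : 0 ≤ 6 * K ^ 2 * ((e * (χ z * v z) ^ 2
        + e * (dx (fun z => χ z * v z) z ^ 2
          + dy (fun z => χ z * v z) z ^ 2))
      + (e * (χ z * w z) ^ 2
        + e * (dx (fun z => χ z * w z) z ^ 2
          + dy (fun z => χ z * w z) z ^ 2))) := by positivity
    nlinarith

theorem YZ (hCE : CE_stmt) (hCO : CO_stmt) : YZ_stmt := by
  intro R ε ν K v w hε hεR hν hv hw hin h0 q0 hq0
  by_contra hne
  set r := max (Real.sqrt (rh (0, q0))) ε with hr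
  have hq0' : rh (0, q0) < R ^ 2 := (UZ_mem (0, q0) R).1 hq0
  have hR : 0 < R := hε.trans hεR
  have hrR : r < R := by
    rw [hr, max_lt_iff]
    refine ⟨?_, hεR⟩
    rw [Real.sqrt_lt' hR]
    exact hq0'
  have hεr : ε ≤ r := le_max_right _ _
  have hqr : rh (0, q0) ≤ r ^ 2 := by
    rw [← Real.sqrt_le_left (by linarith)]
    exact le_max_left _ _
  obtain ⟨χ, c1, c2, c3, c4, c5⟩ := hCO (r + (R - r) / 3) (r + 2 * (R - r) / 3) (by linarith)
    (by linarith)
  set R1 := r + (R - r) / 3 with hR1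
  set R2 := r + 2 * (R - r) / 3 with hR2
  have hR1pos : 0 < R1 := by linarith
  have hR12 : R1 < R2 := by linarith
  have hR2R : R2 < R := by linarith
  have hts := YZ_supp (by linarith) hR2R c5
  have V1 := YZ_mul (isOpen_Ioo.prod (YZ_open R)) c1 hts hv
  have W1 := YZ_mul (isOpen_Ioo.prod (YZ_open R)) c1 hts hw
  have V2 : HasCompactSupport (fun z => χ z * v z) := c2.mul_right
  have W2 : HasCompactSupport (fun z => χ z * w z) := c2.mul_right
  set V : ℝ × ℝ × ℝ → ℝ := fun z => χ z * v z with hV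
  set W : ℝ × ℝ × ℝ → ℝ := fun z => χ z * w z with hW
  have hεrh : ∀ z : ℝ × ℝ × ℝ, |z.1| ≤ 2 → ¬ (v z = 0 ∧ w z = 0) → ε ^ 2 ≤ rh z := by
    intro z hz2 hz
    by_contra hlt
    apply hz
    have hz3 : z.1 ∈ Ioo (-3 : ℝ) 3 := by
      have h9 := abs_le.1 hz2
      exact ⟨by linarith, by linarith⟩
    have := h0 z.1 hz3 z.2 ((UZ_mem z ε).2 (not_le.1 hlt))
    simpa using this
  have sV : ∀ z, V z ≠ 0 → |z.1| ≤ 2 ∧ ε ^ 2 ≤ rh z ∧ rh z ≤ R2 ^ 2 := by
    intro z hz
    have h1 : χ z ≠ 0 := left_ne_zero_of_mul hz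
    have h2 : v z ≠ 0 := right_ne_zero_of_mul hz
    exact ⟨(c5 z h1).1, hεrh z (c5 z h1).1 (fun h => h2 h.1), (c5 z h1).2⟩
  have sW : ∀ z, W z ≠ 0 → |z.1| ≤ 2 ∧ ε ^ 2 ≤ rh z ∧ rh z ≤ R2 ^ 2 := by
    intro z hz
    have h1 : χ z ≠ 0 := left_ne_zero_of_mul hz
    have h2 : w z ≠ 0 := right_ne_zero_of_mul hz
    exact ⟨(c5 z h1).1, hεrh z (c5 z h1).1 (fun h => h2 h.2), (c5 z h1).2⟩
  have hl : (0 : ℝ) < 2 / ε ^ 2 := by positivity
  have hlε : 2 ≤ 2 / ε ^ 2 * ε ^ 2 := by
    rw [div_mul_cancel₀ _ (by positivity)]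
  obtain ⟨C, τ0, hC, hτ0, hcarl⟩ := hCE ν (2 / ε ^ 2) ε R2 hν hl hε (by linarith) hlε
  set l := 2 / ε ^ 2 with hldef
  set β := Real.exp (-(l * R1 ^ 2)) with hβ
  set H0 := (∫ z, heat ν V z ^ 2) + ∫ z, heat ν W z ^ 2 with hH0
  have hVc : Continuous V := V1.continuous
  have hWc : Continuous W := W1.continuous
  have hgc : Continuous (fun z => max (wt l z - β) 0 * (V z ^ 2 + W z ^ 2)) :=
    (((UZ_wt_cont l).sub continuous_const).max continuous_const).mul
      ((hVc.pow 2).add (hWc.pow 2))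
  have hgs : HasCompactSupport (fun z => max (wt l z - β) 0 * (V z ^ 2 + W z ^ 2)) :=
    ((IT_sq V2).add (IT_sq W2)).mul_left
  set c0 := ∫ z, max (wt l z - β) 0 * (V z ^ 2 + W z ^ 2) with hc0
  have hc0pos : 0 < c0 := by
    refine hgc.integral_pos_of_hasCompactSupport_nonneg_nonzero (x := ((0 : ℝ), q0)) hgs ?_ ?_
    · intro z
      exact mul_nonneg (le_max_right _ _) (by positivity)
    · have hχ : χ (0, q0) = 1 := by
        apply c4
        · simp
        · refine hqr.trans ?_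
          exact pow_le_pow_left₀ (by linarith) (by linarith) 2
      have h1 : 0 < wt l (0, q0) - β := by
        rw [hβ]
        unfold wt
        have : l * rh (0, q0) < l * R1 ^ 2 := by
          apply mul_lt_mul_of_pos_left _ hl
          refine hqr.trans_lt ?_
          nlinarith
        have := Real.exp_lt_exp.2 (neg_lt_neg this)
        simp only [ne_eq, OfNat.ofNat_ne_zero, not_false_eq_true, zero_pow, sub_zero]
        linarith
      have h2 : V (0, q0) = v (0, q0) := by simp [hV, hχ]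
      have h3 : W (0, q0) = w (0, q0) := by simp [hW, hχ]
      rw [max_eq_left h1.le, h2, h3]
      refine mul_ne_zero h1.ne' ?_
      intro h4
      apply hne
      have h5 : v (0, q0) ^ 2 = 0 := by nlinarith [sq_nonneg (v (0, q0)), sq_nonneg (w (0, q0))]
      have h6 : w (0, q0) ^ 2 = 0 := by nlinarith [sq_nonneg (v (0, q0)), sq_nonneg (w (0, q0))]
      exact ⟨pow_eq_zero_iff (two_ne_zero) |>.1 h5, pow_eq_zero_iff (two_ne_zero) |>.1 h6⟩
  have dVx : Continuous (dx V) := (IT_dx1 V1).continuous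
  have dVy : Continuous (dy V) := (IT_dy1 V1).continuous
  have dWx : Continuous (dx W) := (IT_dx1 W1).continuous
  have dWy : Continuous (dy W) := (IT_dy1 W1).continuous
  have sVx : HasCompactSupport (dx V) := IT_cs _ V2
  have sVy : HasCompactSupport (dy V) := IT_cs _ V2
  have sWx : HasCompactSupport (dx W) := IT_cs _ W2
  have sWy : HasCompactSupport (dy W) := IT_cs _ W2
  have hHV : Integrable (fun z => heat ν V z ^ 2) := by
    have := UZ_int (continuous_const (y := (1 : ℝ))) (UZ_heat_cont (ν := ν) V1) (UZ_heat_cs V2)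
    simpa using this
  have hHW : Integrable (fun z => heat ν W z ^ 2) := by
    have := UZ_int (continuous_const (y := (1 : ℝ))) (UZ_heat_cont (ν := ν) W1) (UZ_heat_cs W2)
    simpa using this
  have key : ∀ τ, τ0 ≤ τ → 12 * C * K ^ 2 ≤ τ → τ ^ 3 * c0 ≤ 2 * C * H0 := by
    intro τ hτ hτK
    have hτ1 : 1 ≤ τ := hτ0.trans hτ
    have hec : Continuous (fun z => Real.exp (2 * τ * wt l z)) :=
      Real.continuous_exp.comp (continuous_const.mul (UZ_wt_cont l))
    have i1 := UZ_int hec hVc V2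
    have i2 := UZ_int hec hWc W2
    have i3 := UZ_int2 hec dVx sVx dVy sVy
    have i4 := UZ_int2 hec dWx sWx dWy sWy
    have i5 := UZ_int hec (UZ_heat_cont (ν := ν) V1) (UZ_heat_cs V2)
    have i6 := UZ_int hec (UZ_heat_cont (ν := ν) W1) (UZ_heat_cs W2)
    have C1 := hcarl τ hτ V V1 V2 sV
    have C2 := hcarl τ hτ W W1 W2 sW
    have hpt := YZ_point (τ := τ) hR1pos (by linarith : R1 < R) hl (by linarith) c4 hin
    have hI : ∫ z, (Real.exp (2 * τ * wt l z) * heat ν V z ^ 2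
        + Real.exp (2 * τ * wt l z) * heat ν W z ^ 2)
        ≤ ∫ z, (6 * K ^ 2 * ((Real.exp (2 * τ * wt l z) * V z ^ 2
        + Real.exp (2 * τ * wt l z) * (dx V z ^ 2 + dy V z ^ 2))
      + (Real.exp (2 * τ * wt l z) * W z ^ 2
        + Real.exp (2 * τ * wt l z) * (dx W z ^ 2 + dy W z ^ 2)))
      + Real.exp (2 * τ * β) * (heat ν V z ^ 2 + heat ν W z ^ 2)) := by
      apply integral_mono (i5.add i6)
      · exact (((i1.add i3).add (i2.add i4)).const_mul _).add ((hHV.add hHW).const_mul _)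
      · intro z
        exact hpt z
    rw [integral_add i5 i6, UZ_split i1 i2 i3 i4 hHV hHW] at hI
    have hlow : Real.exp (2 * τ * β) * c0 ≤ (∫ z, Real.exp (2 * τ * wt l z) * V z ^ 2)
        + ∫ z, Real.exp (2 * τ * wt l z) * W z ^ 2 := by
      rw [← integral_add i1 i2, hc0, ← integral_const_mul]
      apply integral_mono ((IT_int hgc hgs).const_mul _) (i1.add i2)
      intro z
      simp only [Pi.add_apply]
      have h1 : Real.exp (2 * τ * β) * max (wt l z - β) 0 ≤ Real.exp (2 * τ * wt l z) := by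
        rcases le_total (wt l z - β) 0 with h2 | h2
        · rw [max_eq_right h2, mul_zero]
          exact (Real.exp_pos _).le
        · rw [max_eq_left h2]
          have h3 : wt l z - β ≤ Real.exp (2 * τ * (wt l z - β)) := by
            have h4 := Real.add_one_le_exp (2 * τ * (wt l z - β))
            nlinarith
          have h5 := mul_le_mul_of_nonneg_left h3 (Real.exp_pos (2 * τ * β)).le
          rw [← Real.exp_add] at h5
          have h6 : 2 * τ * β + 2 * τ * (wt l z - β) = 2 * τ * wt l z := by ring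
          rwa [h6] at h5
      have h2 : 0 ≤ V z ^ 2 + W z ^ 2 := by positivity
      have h3 := mul_le_mul_of_nonneg_right h1 h2
      nlinarith
    refine UZ_num (E1 := Real.exp (2 * τ * β))
      (A := (∫ z, Real.exp (2 * τ * wt l z) * V z ^ 2)
        + ∫ z, Real.exp (2 * τ * wt l z) * W z ^ 2)
      (B := (∫ z, Real.exp (2 * τ * wt l z) * (dx V z ^ 2 + dy V z ^ 2))
        + ∫ z, Real.exp (2 * τ * wt l z) * (dx W z ^ 2 + dy W z ^ 2)) hτ1 hτK ?_ ?_
      (Real.exp_pos _) hlow ?_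
    · exact add_nonneg (integral_nonneg fun z => by positivity)
        (integral_nonneg fun z => by positivity)
    · exact add_nonneg (integral_nonneg fun z => by positivity)
        (integral_nonneg fun z => by positivity)
    · have h1 := mul_le_mul_of_nonneg_left hI hC.le
      rw [hH0]
      nlinarith
  have hH0n : 0 ≤ H0 := add_nonneg (integral_nonneg fun z => by positivity)
    (integral_nonneg fun z => by positivity)
  have hτ := key (max (max τ0 (12 * C * K ^ 2)) (2 * C * H0 / c0 + 1))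
    ((le_max_left _ _).trans (le_max_left _ _)) ((le_max_right _ _).trans (le_max_left _ _))
  set τ := max (max τ0 (12 * C * K ^ 2)) (2 * C * H0 / c0 + 1) with hτdef
  have hτ1 : 1 ≤ τ := hτ0.trans ((le_max_left _ _).trans (le_max_left _ _))
  have hτ2 : 2 * C * H0 / c0 + 1 ≤ τ := le_max_right _ _
  have hτ3 : τ ≤ τ ^ 3 := by
    calc τ = τ ^ 1 := (pow_one τ).symm
      _ ≤ τ ^ 3 := pow_le_pow_right₀ hτ1 (by norm_num)
  have h1 : 2 * C * H0 < τ * c0 := by
    rw [← div_lt_iff₀ hc0pos]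
    linarith
  have h2 : τ * c0 ≤ τ ^ 3 * c0 := mul_le_mul_of_nonneg_right hτ3 hc0pos.le
  linarith


end NS
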