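import Pool.Agent.helper29.NS.SpecE
import Pool.Agent.helper52.NS.UB

/-!
# Project ns, module UV: constant boundary vorticity during a window
-/

namespace NS

open MeasureTheory Filter Topology Set

theorem UV_mono {c : ℝ × ℝ} {r s : ℝ} (hr : 0 < r) (hrs : r ≤ s) : Dsc c r ⊆ Dsc c s := by
  intro q hq
  have hq' : (q.1 - c.1) ^ 2 + (q.2 - c.2) ^ 2 < r ^ 2 := hq
  show (q.1 - c.1) ^ 2 + (q.2 - c.2) ^ 2 < s ^ 2
  have : r ^ 2 ≤ s ^ 2 := pow_le_pow_left₀ hr.le hrs 2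
  linarith

theorem UV_mem {c : ℝ × ℝ} {r : ℝ} (hr : 0 < r) : c ∈ Dsc c r := by
  show (c.1 - c.1) ^ 2 + (c.2 - c.2) ^ 2 < r ^ 2
  have : 0 < r ^ 2 := by positivity
  simpa using this

theorem UV (hAC : AC_stmt) (hNC : NC_stmt) (hCL : CL_stmt) (hHJ : HJ_stmt) (hGL : GL_stmt)
    (hYI : YI_stmt) (hSL : SL_stmt) (hSM : SM_stmt) : UV_stmt := by
  intro Ω ν a b m n c θ δ f α β ε w0 hΩ hν hDM ha hb hc hf hε hheat hw
  obtain ⟨ε1, hε1, hAC1⟩ := hAC Ω ν a b m n c θ δ f hΩ hν.ne' hDM hc hf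
  -- regularity
  have hva : ContDiff ℝ 7 (vort a b) := by
    have h1 := (hSM 7 b (by exact_mod_cast hb)).2.1
    have h2 := (hSM 7 a (by exact_mod_cast ha)).2.2.1
    have := h1.sub h2
    exact_mod_cast this
  obtain ⟨sm1, sm2, sm3, -⟩ := hSM 6 (vort a b) (by exact_mod_cast hva)
  have sm4 := (hSM 5 (dx (vort a b)) (by exact_mod_cast sm2)).2.1
  have sm5 := (hSM 5 (dy (vort a b)) (by exact_mod_cast sm3)).2.2.1
  have hhc : Continuous (heat ν (vort a b)) := by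
    unfold heat
    exact sm1.continuous.sub ((sm4.continuous.add sm5.continuous).const_mul ν |> fun h => h)
  -- the function F
  set F : ℝ × ℝ × ℝ → ℝ := fun z => vort a b z - w0 with hF
  have hFd : fderiv ℝ F = fderiv ℝ (vort a b) := by
    funext z
    rw [hF]
    exact fderiv_sub_const w0
  have hFt : dt F = dt (vort a b) := by
    funext z; unfold dt; rw [hFd]
  have hFx : dx F = dx (vort a b) := by
    funext z; unfold dx; rw [hFd]
  have hFy : dy F = dy (vort a b) := by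
    funext z; unfold dy; rw [hFd]
  have hF2 : ContDiff ℝ 2 F := (hva.of_le (by norm_num)).sub contDiff_const
  -- values on the frontier
  have hmin : 0 < min ε ε1 := lt_min hε hε1
  have hfr0 : ∀ t ∈ Ioo α β, ∀ q ∈ frontier Ω ∩ Dsc c (min ε ε1), F (t, q) = 0 ∧
      dx F (t, q) = 0 ∧ dy F (t, q) = 0 ∧ lap F (t, q) = 0 := by
    intro t ht q hq
    have hq1 : q ∈ Dsc c ε1 := UV_mono hmin (min_le_right _ _) hq.2
    have hq2 : q ∈ Dsc c ε := UV_mono hmin (min_le_left _ _) hq.2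
    have hval : ∀ t ∈ Ioo α β, vort a b (t, q) = w0 := fun t ht => by
      rw [hAC1 t q ⟨hq.1, hq1⟩, hw t ht]
    obtain ⟨n1, n2, -⟩ := hNC Ω ν a b m n hΩ hν.ne' hDM t q hq.1
    have hdt : dt (vort a b) (t, q) = 0 := by
      rw [← (hSL (vort a b) t q ((hva.differentiable (by norm_num)) _)).2.2]
      have : (fun t => vort a b (t, q)) =ᶠ[𝓝 t] fun _ => w0 := by
        filter_upwards [Ioo_mem_nhds ht.1 ht.2] with s hs
        exact hval s hs
      rw [this.deriv_eq, deriv_const]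
    have hh : heat ν (vort a b) (t, q) = 0 :=
      (hCL Ω hΩ q (frontier_subset_closure hq.1) (Dsc c ε) ((UB_open c ε).mem_nhds hq2)
        (fun q => heat ν (vort a b) (t, q)) (by fun_prop) (hheat t ht)).1
    refine ⟨by rw [hF]; simp [hval t ht], by rw [hFx]; exact n1, by rw [hFy]; exact n2, ?_⟩
    unfold heat at hh
    rw [hdt, zero_sub, neg_eq_zero] at hh
    unfold lap
    rw [hFx, hFy]
    exact (mul_eq_zero.1 hh).resolve_left hν.ne'
  obtain ⟨V', hV', hz⟩ := hHJ Ω c θ δ f α β F hΩ hc hF2 (Dsc c (min ε ε1))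
    ((UB_open c _).mem_nhds (UV_mem hmin)) hfr0
  obtain ⟨R, hR, hRV⟩ := Metric.mem_nhds_iff.1 hV'
  have hDV : Dsc c R ⊆ V' := by
    intro q hq
    apply hRV
    have hq' : (q.1 - c.1) ^ 2 + (q.2 - c.2) ^ 2 < R ^ 2 := hq
    rw [Metric.mem_ball, Prod.dist_eq, max_lt_iff, Real.dist_eq, Real.dist_eq]
    exact ⟨abs_lt_of_sq_lt_sq (by nlinarith [sq_nonneg (q.2 - c.2)]) hR.le,
      abs_lt_of_sq_lt_sq (by nlinarith [sq_nonneg (q.1 - c.1)]) hR.le⟩
  have hρ : 0 < min R ε := lt_min hR hε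
  refine ⟨min R ε, hρ, ?_⟩
  have hD1 : Dsc c (min R ε) ⊆ V' := (UV_mono hρ (min_le_left _ _)).trans hDV
  have hD2 : Dsc c (min R ε) ⊆ Dsc c ε := UV_mono hρ (min_le_right _ _)
  obtain ⟨-, W, hW1, hW2, hW3, hW4⟩ := UB_ext hc hρ
  set A : Set (ℝ × ℝ × ℝ) := univ ×ˢ Ω with hA
  set O : Set (ℝ × ℝ × ℝ) := Ioo α β ×ˢ Dsc c (min R ε) with hO
  have hAo : IsOpen A := isOpen_univ.prod hΩ
  have hOo : IsOpen O := isOpen_Ioo.prod (UB_open c _)
  have hfr : ∀ z ∈ frontier A ∩ O,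
      F z = 0 ∧ fderiv ℝ F z = 0 ∧ fderiv ℝ (fderiv ℝ F) z = 0 := by
    rintro ⟨t, q⟩ ⟨h1, h2⟩
    rw [hA, frontier_univ_prod_eq] at h1
    exact hz t h2.1 q ⟨h1.2, hD1 h2.2⟩
  obtain ⟨g1, g2, g3⟩ := hGL A O F hAo hOo hF2 hfr
  have key := hYI (Dsc c (min R ε)) α β ν 0 (A.indicator F) (A.indicator F) (UB_open c _)
    (UB_conv c _).isPreconnected hν g1 g1 (by
      intro t ht q hq
      have hzO : ((t, q) : ℝ × ℝ × ℝ) ∈ O := ⟨ht, hq⟩
      have da := UB_der hOo hF2 g1 g2 g3 hzO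
      by_cases hqD : q ∈ Ω
      · have hzA : ((t, q) : ℝ × ℝ × ℝ) ∈ A := ⟨mem_univ _, hqD⟩
        obtain ⟨a0, a1, a2, a3, a4, a5⟩ := da.1 hzA
        have h1 := hheat t ht q ⟨hqD, hD2 hq⟩
        have h2 : heat ν (A.indicator F) (t, q) = 0 := by
          unfold heat at h1 ⊢
          rw [a1, a4, a5, hFt, hFx, hFy, h1]
        rw [h2]
        simp
      · have hzA : ((t, q) : ℝ × ℝ × ℝ) ∉ A := fun h => hqD h.2
        obtain ⟨a0, a1, a2, a3, a4, a5⟩ := da.2 hzA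
        unfold heat
        rw [a1, a4, a5]
        simp)
    (by
      refine ⟨W, hW1, hW2, hW3, ?_⟩
      rintro t - q hq
      have hzA : ((t, q) : ℝ × ℝ × ℝ) ∉ A := fun h => hW4 q hq h.2
      exact ⟨Set.indicator_of_notMem hzA _, Set.indicator_of_notMem hzA _⟩)
  intro t ht q hq
  have hzA : ((t, q) : ℝ × ℝ × ℝ) ∈ A := ⟨mem_univ _, hq.1⟩
  have h1 := (key t ht q hq.2).1
  rw [Set.indicator_of_mem hzA] at h1
  have h2 : vort a b (t, q) - w0 = 0 := h1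
  linarith

end NS
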